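import Pool.Agent.J6H59.HopfOrder.Main

/-!
# MP_46c6cb_nt: the associated order in the canonical nonclassical structure is maximal

`K` is a `p`-adic field (a finite extension of `ℚ_p`), `L/K` a finite Galois extension with group
`G` and `p` does not divide `[L:K]`. Then the associated order of `O_L` in
`H_lambda = L[lambda(G)]^G` is a maximal `O_K`-order in `H_lambda`.
-/

namespace Pool.Agent.Results.MP_46c6cb_nt.MaximalAssociatedOrder

open Pool.Agent.J6H59.HopfOrder

/-- If `L/K` is a finite Galois extension of `p`-adic fields and `p` does not divide `[L:K]`,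
then the associated order `assocOrder p K L` of `O_L` is a maximal `O_K`-order in the
`K`-algebra `H_lambda`. The assumptions `[Algebra ℤ_[p] K]`, `[IsScalarTower ℤ_[p] ℚ_[p] K]` and
`[Algebra ℤ_[p] L]`, `[IsScalarTower ℤ_[p] K L]` only name the algebra structures induced by
`ℤ_p ⊆ ℚ_p → K → L`. -/
theorem result (p : ℕ) [Fact p.Prime] (K L : Type*) [Field K] [Field L] [Algebra ℚ_[p] K]
    [FiniteDimensional ℚ_[p] K] [Algebra K L] [FiniteDimensional K L] [IsGalois K L]
    [Algebra ℤ_[p] K] [IsScalarTower ℤ_[p] ℚ_[p] K] [Algebra ℤ_[p] L] [IsScalarTower ℤ_[p] K L]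
    (hp : ¬ p ∣ Module.finrank K L) :
    IsMaximalOrder (ringInt p K) (Hlam K L) (assocOrder p K L) :=
  main p K L hp

end Pool.Agent.Results.MP_46c6cb_nt.MaximalAssociatedOrder
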